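import Pool.Agent.H29.HMF.Stmts

/-!
# Board hmf (MP_e1ba20_an), row MF2: monomial matrices do not change the flat (helper70)
-/

set_option autoImplicit false

open Matrix MeasureTheory

namespace Pool.HMF

namespace MF2aux

/-- the transpose of an orthogonal matrix -/
lemma orth (k : S2) (hk : k.1 * k.1ᵀ = 1) : ∃ K : S2, K.1 * k.1 = 1 ∧ k.1 * K.1 = 1 ∧
    K.1 * K.1ᵀ = 1 := by
  have h1 : (k⁻¹).1 * k.1 = 1 := by
    rw [← Matrix.SpecialLinearGroup.coe_mul, inv_mul_cancel, Matrix.SpecialLinearGroup.coe_one]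
  have h2 : k.1 * (k⁻¹).1 = 1 := by
    rw [← Matrix.SpecialLinearGroup.coe_mul, mul_inv_cancel, Matrix.SpecialLinearGroup.coe_one]
  refine ⟨k⁻¹, h1, h2, ?_⟩
  have h3 : (k⁻¹).1 = k.1ᵀ := by
    calc (k⁻¹).1 = (k⁻¹).1 * (k.1 * k.1ᵀ) := by rw [hk, mul_one]
      _ = k.1ᵀ := by rw [← mul_assoc, h1, one_mul]
  rw [h3, Matrix.transpose_transpose]
  exact mul_eq_one_comm.1 hk

lemma orth_mul (k l : S2) (hk : k.1 * k.1ᵀ = 1) (hl : l.1 * l.1ᵀ = 1) :
    (k * l).1 * (k * l).1ᵀ = 1 := by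
  rw [Matrix.SpecialLinearGroup.coe_mul, Matrix.transpose_mul]
  calc k.1 * l.1 * (l.1ᵀ * k.1ᵀ) = k.1 * (l.1 * l.1ᵀ) * k.1ᵀ := by
        simp only [mul_assoc]
    _ = 1 := by rw [hl, mul_one, hk]

lemma sg_sq (p : Bool) : sg p * sg p = 1 := by
  unfold sg
  cases p <;> norm_num

end MF2aux

open MF2aux in
theorem mf2_thm (_hB : BASS) (hD : DATS) : MF2S := by
  intro g M p hM
  choose t ht _ using fun i => hD (M i) (p i) (hM i)
  ext h
  constructor
  · rintro ⟨γ, v, -, hv⟩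
    refine ⟨γ, fun i => sg (p i) * v i + t i, Set.mem_univ _, fun i => ?_⟩
    obtain ⟨k, hk, hh⟩ := hv i
    obtain ⟨k', hk', hd⟩ := ht i (v i)
    refine ⟨k' * k, orth_mul _ _ hk' hk, ?_⟩
    rw [hh, Matrix.SpecialLinearGroup.coe_mul, Matrix.SpecialLinearGroup.coe_mul]
    calc cm i γ.1 * ((g i).1 * (M i).1) * dg (v i) * k.1
        = cm i γ.1 * (g i).1 * ((M i).1 * dg (v i)) * k.1 := by simp only [mul_assoc]
      _ = cm i γ.1 * (g i).1 * (dg (sg (p i) * v i + t i) * k'.1) * k.1 := by rw [hd]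
      _ = _ := by simp only [mul_assoc]
  · rintro ⟨γ, v, -, hv⟩
    refine ⟨γ, fun i => sg (p i) * (v i - t i), Set.mem_univ _, fun i => ?_⟩
    obtain ⟨k, hk, hh⟩ := hv i
    obtain ⟨k', hk', hd⟩ := ht i (sg (p i) * (v i - t i))
    have e : sg (p i) * (sg (p i) * (v i - t i)) + t i = v i := by
      rw [← mul_assoc, sg_sq]
      ring
    rw [e] at hd
    obtain ⟨K, hK1, hK2, hK3⟩ := orth k' hk'
    refine ⟨K * k, orth_mul _ _ hK3 hk, ?_⟩
    rw [hh, Matrix.SpecialLinearGroup.coe_mul, Matrix.SpecialLinearGroup.coe_mul]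
    calc cm i γ.1 * (g i).1 * dg (v i) * k.1
        = cm i γ.1 * (g i).1 * (dg (v i) * (k'.1 * K.1)) * k.1 := by rw [hK2, mul_one]
      _ = cm i γ.1 * (g i).1 * ((dg (v i) * k'.1) * K.1) * k.1 := by simp only [mul_assoc]
      _ = cm i γ.1 * (g i).1 * (((M i).1 * dg (sg (p i) * (v i - t i))) * K.1) * k.1 := by rw [hd]
      _ = _ := by simp only [mul_assoc]

end Pool.HMF
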